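import Pool.Agent.H72.CH.Targets2

/-!
# Row SBA of the board chl_modules: the class has strong amalgamation
-/

set_option autoImplicit false

namespace Pool.Agent.H4.CH.SBA

open Pool.Agent.H68.BP Pool.Agent.H58.SF Pool.Agent.H53.NR
open Pool.Agent.H57.AR (tp ty Ty)
open Pool.Agent.H57.LH (Hmg)
open Pool.Agent.H44.KR (HB Amg Tyi TpOn)
open Pool.Agent.H57.CN (KH Lim AgO)
open Pool.Agent.H72.CH
open Function

variable {V : Type} {ρ : Sig}

section lam

variable {W : Type} {A B : Set W} (lv : V → V → ℕ) (d : ℕ) (x1 : A → V) (x2 : B → V)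

/-- both tuples together -/
def ff : A ⊕ B → V := Sum.elim x1 x2

open Classical in
/-- the levels of the amalgam -/
noncomputable def lam [Fintype ↥(A ∩ B)] (p q : A ⊕ B) : ℕ :=
  if p.isLeft = q.isLeft then lv (ff x1 x2 p) (ff x1 x2 q) else
    max d (Finset.univ.sup fun c : ↥(A ∩ B) =>
      min (lv (ff x1 x2 p) (x1 ⟨c.1, c.2.1⟩)) (lv (x1 ⟨c.1, c.2.1⟩) (ff x1 x2 q)))

variable [Fintype ↥(A ∩ B)]

lemma lam_same {p q : A ⊕ B} (h : p.isLeft = q.isLeft) :
    lam lv d x1 x2 p q = lv (ff x1 x2 p) (ff x1 x2 q) := if_pos h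

lemma lam_cross {p q : A ⊕ B} (h : ¬ p.isLeft = q.isLeft) :
    lam lv d x1 x2 p q = max d (Finset.univ.sup fun c : ↥(A ∩ B) =>
      min (lv (ff x1 x2 p) (x1 ⟨c.1, c.2.1⟩)) (lv (x1 ⟨c.1, c.2.1⟩) (ff x1 x2 q))) := if_neg h

lemma cross_iff {p q : A ⊕ B} (h : ¬ p.isLeft = q.isLeft) (k : ℕ) (hk : d < k) :
    k ≤ lam lv d x1 x2 p q ↔ ∃ c : ↥(A ∩ B), k ≤ lv (ff x1 x2 p) (x1 ⟨c.1, c.2.1⟩) ∧
      k ≤ lv (x1 ⟨c.1, c.2.1⟩) (ff x1 x2 q) := by
  rw [lam_cross lv d x1 x2 h, le_max_iff]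
  have h0 : (⊥ : ℕ) < k := (Nat.zero_le d).trans_lt hk
  constructor
  · rintro (h1 | h1)
    · omega
    · obtain ⟨c, -, hc⟩ := (Finset.le_sup_iff h0).1 h1
      exact ⟨c, (le_min_iff.1 hc).1, (le_min_iff.1 hc).2⟩
  · rintro ⟨c, h1, h2⟩
    exact Or.inr ((Finset.le_sup_iff h0).2 ⟨c, Finset.mem_univ c, le_min h1 h2⟩)

lemma cross_ge {p q : A ⊕ B} (h : ¬ p.isLeft = q.isLeft) : d ≤ lam lv d x1 x2 p q := by
  rw [lam_cross lv d x1 x2 h]
  exact le_max_left _ _

end lam

section plev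

variable {W : Type} {A B : Set W} {lv : V → V → ℕ} {d m : ℕ} {x1 : A → V} {x2 : B → V}
  [Fintype ↥(A ∩ B)]

lemma lam_le (hL : PLev m lv) (hd : ∀ p q : A ⊕ B, d ≤ lv (ff x1 x2 p) (ff x1 x2 q))
    (p q : A ⊕ B) : lam lv d x1 x2 p q ≤ lv (ff x1 x2 p) (ff x1 x2 q) := by
  by_cases h : p.isLeft = q.isLeft
  · rw [lam_same lv d x1 x2 h]
  · rw [lam_cross lv d x1 x2 h]
    refine max_le (hd p q) (Finset.sup_le fun c _ => ?_)
    exact hL.ult _ _ _

lemma lam_sym (hL : PLev m lv) (p q : A ⊕ B) : lam lv d x1 x2 p q = lam lv d x1 x2 q p := by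
  by_cases h : p.isLeft = q.isLeft
  · rw [lam_same lv d x1 x2 h, lam_same lv d x1 x2 h.symm, hL.sym]
  · have h' : ¬ q.isLeft = p.isLeft := fun h1 => h h1.symm
    rw [lam_cross lv d x1 x2 h, lam_cross lv d x1 x2 h']
    congr 1
    refine Finset.sup_congr rfl fun c _ => ?_
    rw [min_comm, hL.sym (x1 _) (ff x1 x2 q), hL.sym (ff x1 x2 p) (x1 _)]

/-- equal sides first -/
lemma ult_aux (hL : PLev m lv) {p q r : A ⊕ B} (hpq : p.isLeft = q.isLeft)
    (hqr : ¬ q.isLeft = r.isLeft) : min (lam lv d x1 x2 p q) (lam lv d x1 x2 q r) ≤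
      lam lv d x1 x2 p r := by
  have hpr : ¬ p.isLeft = r.isLeft := fun h => hqr (hpq.symm.trans h)
  by_cases hk : min (lam lv d x1 x2 p q) (lam lv d x1 x2 q r) ≤ d
  · exact hk.trans (cross_ge lv d x1 x2 hpr)
  · have hk' : d < min (lam lv d x1 x2 p q) (lam lv d x1 x2 q r) := not_le.1 hk
    obtain ⟨c, h1, h2⟩ := (cross_iff lv d x1 x2 hqr _ hk').1 (min_le_right _ _)
    refine (cross_iff lv d x1 x2 hpr _ hk').2 ⟨c, ?_, h2⟩
    refine le_trans (le_min ?_ h1) (hL.ult _ (ff x1 x2 q) _)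
    rw [← lam_same lv d x1 x2 hpq]
    exact min_le_left _ _

lemma plev_lam (hL : PLev m lv) (hdm : d ≤ m)
    (hd : ∀ p q : A ⊕ B, d ≤ lv (ff x1 x2 p) (ff x1 x2 q)) : PLev m (lam lv d x1 x2) where
  le := fun p q => (lam_le hL hd p q).trans (hL.le _ _)
  self := fun p => by
    rw [lam_same lv d x1 x2 rfl]
    exact hL.self _
  sym := fun p q => lam_sym hL p q
  ult := fun p q r => by
    by_cases hpr : p.isLeft = r.isLeft
    · rw [lam_same lv d x1 x2 hpr]
      refine le_trans (min_le_min (lam_le hL hd p q) (lam_le hL hd q r)) (hL.ult _ _ _)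
    · by_cases hpq : p.isLeft = q.isLeft
      · exact ult_aux hL hpq fun h => hpr (hpq.trans h)
      · have hqr : q.isLeft = r.isLeft := by
          revert hpr hpq
          cases p.isLeft <;> cases q.isLeft <;> cases r.isLeft <;> simp
        have h1 := ult_aux (d := d) (x1 := x1) (x2 := x2) hL hqr.symm
          (fun h : q.isLeft = p.isLeft => hpq h.symm)
        rw [lam_sym hL r q, lam_sym hL q p, lam_sym hL r p, min_comm] at h1
        exact h1

end plev

theorem pf_SBA : T_SBA := by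
  classical
  intro V ρ 𝔹 m lv j hV hE hm hj
  have hL : PLev (m + 1) lv := hV.lev.pl
  refine ⟨?_, ?_, ?_⟩
  · rintro X Y _ f 𝕐 hf ⟨x, hx1, hx2, hx3⟩
    refine ⟨fun a => x (f a), hx1.comp hf, ?_, fun a b => hx3 _ _⟩
    rw [hx2]
    rfl
  · intro W _ A B 𝕏 𝕐 hAB hXA hXB hag
    obtain ⟨x1, hx1, hx1p, hx1j⟩ := hXA
    obtain ⟨x0, hx0, hx0p, hx0j⟩ := hXB
    haveI : Fintype ↥(A ∩ B) := Fintype.ofFinite _
    have hX1 : ∀ l (u : Fin (ρ.ar l) → A), 𝕏 l (fun i => (u i : W)) ↔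
        𝔹 l (fun i => x1 (u i)) := fun l u => iff_of_eq (congrFun (congrFun hx1p l) u)
    have hX0 : ∀ l (u : Fin (ρ.ar l) → B), 𝕐 l (fun i => (u i : W)) ↔
        𝔹 l (fun i => x0 (u i)) := fun l u => iff_of_eq (congrFun (congrFun hx0p l) u)
    -- step 1
    have hstep : ∃ x2 : B → V, tp 𝔹 x2 = tp 𝔹 x0 ∧
        (∀ (w : W) (hA : w ∈ A) (hB : w ∈ B), x2 ⟨w, hB⟩ = x1 ⟨w, hA⟩) ∧
        ∀ (a : A) (b : B), ∃ (a0 : A) (b0 : B), x1 a0 = x2 b0 := by
      by_cases hc : ∃ w, w ∈ A ∧ w ∈ B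
      · obtain ⟨w0, hw0A, hw0B⟩ := hc
        let y : B → V := fun b => if h : b.1 ∈ A then x1 ⟨b.1, h⟩ else x0 b
        have hy : ∀ (b : B) (h : b.1 ∈ A), y b = x1 ⟨b.1, h⟩ := fun b h => dif_pos h
        obtain ⟨x2, h1, h2⟩ := hV.hmg B {b | b.1 ∈ A} x0 y
          ⟨fun a ha b hb => by
            rw [hy a ha, hy b hb]
            constructor
            · intro h
              have h3 := hx0 h
              subst h3
              rfl
            · intro h
              have h4 := congrArg Subtype.val (hx1 h)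
              have h3 : a = b := Subtype.ext h4
              rw [h3],
          fun l z hz => by
            have h3 : (fun i => y (z i)) = fun i => x1 ⟨(z i).1, hz i⟩ :=
              funext fun i => hy _ _
            rw [h3, ← hX0 l z, ← hX1 l (fun i => ⟨(z i).1, hz i⟩)]
            exact (hag l (fun i => (z i : W)) fun i => ⟨hz i, (z i).2⟩).symm⟩
        refine ⟨x2, h1, fun w hA hB => ?_, fun a b => ⟨⟨w0, hw0A⟩, ⟨w0, hw0B⟩, ?_⟩⟩
        · rw [h2 ⟨w, hB⟩ hA, hy ⟨w, hB⟩ hA]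
        · rw [h2 ⟨w0, hw0B⟩ hw0A, hy ⟨w0, hw0B⟩ hw0A]
      · by_cases hn : Nonempty A ∧ Nonempty B
        · obtain ⟨⟨a0⟩, ⟨b0⟩⟩ := hn
          obtain ⟨x2, h1, h2⟩ := hV.hmg B {b | b = b0} x0 (fun _ => x1 a0)
            ⟨fun a ha b hb => by
              have ha' : a = b0 := ha
              have hb' : b = b0 := hb
              rw [ha', hb']
              exact ⟨fun _ => rfl, fun _ => rfl⟩,
            fun l z hz => by
              have h3 : (fun i => x0 (z i)) = fun _ => x0 b0 := by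
                funext i
                have h4 : z i = b0 := hz i
                rw [h4]
              rw [h3]
              exact iff_of_eq (congrFun (hV.one (x0 b0) (x1 a0)) l)⟩
          refine ⟨x2, h1, fun w hA hB => absurd ⟨w, hA, hB⟩ hc, fun a b => ⟨a0, b0, ?_⟩⟩
          exact (h2 b0 rfl).symm
        · refine ⟨x0, rfl, fun w hA hB => absurd ⟨w, hA, hB⟩ hc, fun a b => ?_⟩
          exact absurd ⟨⟨a⟩, ⟨b⟩⟩ hn
    obtain ⟨x2, htp, hcom, hmeet⟩ := hstep
    have hx2 : Injective x2 := fun a b h => hx0 ((Pool.Agent.H44.FB.eq_of_tp htp a b).1 h)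
    have hX2 : ∀ l (u : Fin (ρ.ar l) → B), 𝕐 l (fun i => (u i : W)) ↔
        𝔹 l (fun i => x2 (u i)) := fun l u =>
      (hX0 l u).trans (Pool.Agent.H44.FB.rel_of_tp htp l u).symm
    have hx2j : ∀ a b, lv (x2 a) (x2 b) ≠ j := fun a b => by
      rw [Pool.Agent.H57.CN.lv_tp hV htp a b]
      exact hx0j a b
    -- the default level
    set d : ℕ := if j = 0 then 1 else 0 with hd
    have hd1 : d ≤ 1 := by
      rw [hd]
      split_ifs <;> omega
    have hdj : d ≠ j := by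
      rw [hd]
      split_ifs with h <;> omega
    have hdlow : ∀ k, k ≠ j → d ≤ k := by
      intro k hk
      rw [hd]
      split_ifs with h <;> omega
    have hds : ∀ p q : A ⊕ B, p.isLeft = q.isLeft → lv (ff x1 x2 p) (ff x1 x2 q) ≠ j := by
      rintro (a | a) (b | b) h
      · exact hx1j a b
      · exact absurd h (by simp)
      · exact absurd h (by simp)
      · exact hx2j a b
    have hdall : ∀ p q : A ⊕ B, d ≤ lv (ff x1 x2 p) (ff x1 x2 q) := by
      have hab : ∀ (a : A) (b : B), d ≤ lv (x1 a) (x2 b) := by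
        intro a b
        obtain ⟨a0, b0, h0⟩ := hmeet a b
        refine le_trans (le_min (hdlow _ (hx1j a a0)) ?_) (hL.ult _ (x1 a0) _)
        rw [h0]
        exact hdlow _ (hx2j b0 b)
      rintro (a | a) (b | b)
      · exact hdlow _ (hx1j a b)
      · exact hab a b
      · change d ≤ lv (x2 a) (x1 b)
        rw [hL.sym]
        exact hab b a
      · exact hdlow _ (hx2j a b)
    have hPL : PLev (m + 1) (lam lv d x1 x2) := plev_lam hL (by omega) hdall
    obtain ⟨g, hg, hgC⟩ := hE (A ⊕ B) (lam lv d x1 x2) Bool (fun s => {p | p.isLeft = s})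
      (ff x1 x2) hPL (lam_le hL hdall) (fun s p hp q hq => by
        have h1 : p.isLeft = q.isLeft := (show p.isLeft = s from hp).trans
          (show q.isLeft = s from hq).symm
        exact (lam_same lv d x1 x2 h1).symm)
    -- the levels avoid j
    have hcv : ∀ (c : ↥(A ∩ B)) (p : A ⊕ B), lv (ff x1 x2 p) (x1 ⟨c.1, c.2.1⟩) ≠ j := by
      rintro c (a | b)
      · exact hx1j a _
      · change lv (x2 b) (x1 ⟨c.1, c.2.1⟩) ≠ j
        rw [← hcom c.1 c.2.1 c.2.2]
        exact hx2j b _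
    have hlj : ∀ p q : A ⊕ B, lam lv d x1 x2 p q ≠ j := by
      intro p q
      by_cases h : p.isLeft = q.isLeft
      · rw [lam_same lv d x1 x2 h]
        exact hds p q h
      · intro hlam
        have h1 := cross_ge lv d x1 x2 h
        have h2 : d < j := lt_of_le_of_ne (hlam ▸ h1) hdj
        obtain ⟨c, h3, h4⟩ := (cross_iff lv d x1 x2 h j h2).1 hlam.ge
        have h5 : j < lv (ff x1 x2 p) (x1 ⟨c.1, c.2.1⟩) := lt_of_le_of_ne h3 (hcv c p).symm
        have h6 : j < lv (x1 ⟨c.1, c.2.1⟩) (ff x1 x2 q) := by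
          refine lt_of_le_of_ne h4 ?_
          rw [hL.sym]
          exact (hcv c q).symm
        have h7 : j + 1 ≤ lam lv d x1 x2 p q :=
          (cross_iff lv d x1 x2 h (j + 1) (by omega)).2 ⟨c, h5, h6⟩
        omega
    -- common points
    have htop : ∀ (a : A) (b : B), m + 1 ≤ lam lv d x1 x2 (Sum.inl a) (Sum.inr b) →
        (a : W) = b := by
      intro a b h
      obtain ⟨c, h1, h2⟩ := (cross_iff lv d x1 x2 (p := Sum.inl a) (q := Sum.inr b) (by simp)
        (m + 1) (by omega)).1 h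
      have h3 : x1 a = x1 ⟨c.1, c.2.1⟩ :=
        hV.lev.eq _ _ (le_antisymm (hL.le _ _) h1)
      have h4 : x1 ⟨c.1, c.2.1⟩ = x2 b :=
        hV.lev.eq _ _ (le_antisymm (hL.le _ _) h2)
      have h5 : (a : W) = c.1 := congrArg Subtype.val (hx1 h3)
      rw [← hcom c.1 c.2.1 c.2.2] at h4
      have h6 : c.1 = (b : W) := congrArg Subtype.val (hx2 h4)
      exact h5.trans h6
    have hgc : ∀ (w : W) (hA : w ∈ A) (hB : w ∈ B), g (Sum.inl ⟨w, hA⟩) = g (Sum.inr ⟨w, hB⟩) := by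
      intro w hA hB
      refine hV.lev.eq _ _ ?_
      rw [hg]
      refine le_antisymm (hPL.le _ _) ?_
      refine (cross_iff lv d x1 x2 (p := Sum.inl ⟨w, hA⟩) (q := Sum.inr ⟨w, hB⟩) (by simp)
        (m + 1) (by omega)).2 ⟨⟨w, hA, hB⟩, ?_, ?_⟩
      · exact (hL.self _).ge
      · change m + 1 ≤ lv (x1 ⟨w, hA⟩) (x2 ⟨w, hB⟩)
        rw [hcom w hA hB]
        exact (hL.self _).ge
    -- the amalgam
    have hB' : ∀ w, w ∉ A → w ∈ B := fun w hw => (hAB w).resolve_left hw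
    let pw : W → A ⊕ B := fun w => if h : w ∈ A then Sum.inl ⟨w, h⟩ else Sum.inr ⟨w, hB' w h⟩
    have hpA : ∀ (w : W) (h : w ∈ A), pw w = Sum.inl ⟨w, h⟩ := fun w h => dif_pos h
    have hpB : ∀ (w : W) (h : w ∉ A), pw w = Sum.inr ⟨w, hB' w h⟩ := fun w h => dif_neg h
    have hzB : ∀ (w : W) (h : w ∈ B), g (pw w) = g (Sum.inr ⟨w, h⟩) := by
      intro w h
      by_cases hA : w ∈ A
      · rw [hpA w hA]
        exact hgc w hA h
      · rw [hpB w hA]
    have hpinj : ∀ w w', m + 1 ≤ lam lv d x1 x2 (pw w) (pw w') → w = w' := by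
      intro w w' h
      by_cases hw : w ∈ A
      · by_cases hw' : w' ∈ A
        · rw [hpA w hw, hpA w' hw', lam_same lv d x1 x2 (p := Sum.inl ⟨w, hw⟩)
            (q := Sum.inl ⟨w', hw'⟩) rfl] at h
          have h3 := hV.lev.eq _ _ (le_antisymm (hL.le _ _) h)
          exact congrArg Subtype.val (hx1 h3)
        · rw [hpA w hw, hpB w' hw'] at h
          exact htop _ _ h
      · by_cases hw' : w' ∈ A
        · rw [hpB w hw, hpA w' hw', hPL.sym] at h
          exact (htop _ _ h).symm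
        · rw [hpB w hw, hpB w' hw', lam_same lv d x1 x2 (p := Sum.inr ⟨w, hB' w hw⟩)
            (q := Sum.inr ⟨w', hB' w' hw'⟩) rfl] at h
          have h3 := hV.lev.eq _ _ (le_antisymm (hL.le _ _) h)
          exact congrArg Subtype.val (hx2 h3)
    refine ⟨pull 𝔹 (fun w => g (pw w)), ⟨fun w => g (pw w), ?_, rfl, ?_⟩, ?_, ?_⟩
    · intro w w' h
      refine hpinj w w' ?_
      have h' : g (pw w) = g (pw w') := h
      rw [← hg, h']
      exact (hL.self _).ge
    · intro a b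
      rw [hg]
      exact hlj _ _
    · intro l z hz
      change 𝔹 l (fun i => g (pw (z i))) ↔ 𝕏 l z
      have h1 : (fun i => g (pw (z i))) = fun i => g (Sum.inl ⟨z i, hz i⟩) :=
        funext fun i => by rw [hpA _ (hz i)]
      have h2 := (hgC true).2 l (fun i => (Sum.inl ⟨z i, hz i⟩ : A ⊕ B)) fun i => rfl
      rw [h1, ← h2]
      exact (hX1 l fun i => ⟨z i, hz i⟩).symm
    · intro l z hz
      change 𝔹 l (fun i => g (pw (z i))) ↔ 𝕐 l z
      have h1 : (fun i => g (pw (z i))) = fun i => g (Sum.inr ⟨z i, hz i⟩) :=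
        funext fun i => hzB _ (hz i)
      have h2 := (hgC false).2 l (fun i => (Sum.inr ⟨z i, hz i⟩ : A ⊕ B)) fun i => rfl
      rw [h1, ← h2]
      exact (hX2 l fun i => ⟨z i, hz i⟩).symm
  · obtain ⟨v⟩ := hV.ne
    refine ⟨pull 𝔹 (fun _ : Unit => v), fun _ => v, fun a b _ => Subsingleton.elim a b, rfl,
      fun a b => ?_⟩
    rw [hL.self]
    omega

end Pool.Agent.H4.CH.SBA
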